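import Pool.Agent.helper74.DM.XA

/-! DM project, module XB: bounds for the functional equation factor `X` between the lines. -/

set_option autoImplicit false

open Complex Metric MeasureTheory Set Filter Asymptotics

namespace Pool.Agent.helper84.DM

theorem XB_nsq (a y : ℝ) : ‖(a : ℂ) + y * I‖ ^ 2 = a ^ 2 + y ^ 2 := by
  rw [← Complex.normSq_eq_norm_sq, Complex.normSq_apply]
  simp
  ring

theorem XB_mono {a b : ℝ} (y : ℝ) (ha : 0 ≤ a) (hab : a ≤ b) :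
    ‖(a : ℂ) + y * I‖ ≤ ‖(b : ℂ) + y * I‖ := by
  have h1 := XB_nsq a y
  have h2 := XB_nsq b y
  have h3 : ‖(a : ℂ) + y * I‖ ^ 2 ≤ ‖(b : ℂ) + y * I‖ ^ 2 := by
    rw [h1, h2]; nlinarith
  exact (sq_le_sq₀ (norm_nonneg _) (norm_nonneg _)).1 h3

theorem XB_ge (a y : ℝ) (ha : 1 ≤ a) : 1 ≤ ‖(a : ℂ) + y * I‖ := by
  have h1 := XB_nsq a y
  have h0 := norm_nonneg ((a : ℂ) + y * I)
  by_contra h
  push Not at h
  nlinarith [sq_nonneg y]

theorem XB_Gamma_le {s : ℂ} (hs : 0 < s.re) : ‖Complex.Gamma s‖ ≤ Real.Gamma s.re := by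
  rw [Complex.Gamma_eq_integral hs, Real.Gamma_eq_integral hs, Complex.GammaIntegral]
  refine (norm_integral_le_integral_norm _).trans (le_of_eq ?_)
  refine setIntegral_congr_fun measurableSet_Ioi ?_
  intro x hx
  have hx' : (0 : ℝ) < x := hx
  simp only [norm_mul]
  rw [Complex.norm_cpow_eq_rpow_re_of_pos hx', Complex.norm_real,
    Real.norm_of_nonneg (Real.exp_pos _).le]
  simp

theorem XB_eta (s : ℂ) : s = (s.re : ℂ) + s.im * I := (Complex.re_add_im s).symm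

theorem XB_growth : ∃ G : ℝ, 0 < G ∧ ∀ s : ℂ, 1 / 2 ≤ s.re → s.re ≤ 5 / 2 →
    ‖X s‖ ≤ G * Real.exp (2 * |s.im|) := by
  have hcont : ContinuousOn Real.Gamma (Icc (1 / 2 : ℝ) (5 / 2)) := by
    intro x hx
    refine (Real.differentiableAt_Gamma ?_).continuousAt.continuousWithinAt
    intro m h
    have h1 : (1 / 2 : ℝ) ≤ x := hx.1
    have h2 : (0 : ℝ) ≤ m := Nat.cast_nonneg m
    rw [h] at h1
    linarith
  obtain ⟨M, hM⟩ := isCompact_Icc.exists_bound_of_continuousOn hcont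
  refine ⟨2 * (|M| + 1), by positivity, ?_⟩
  intro s h1 h2
  have hre : 0 < s.re := by linarith
  have hG : ‖Complex.Gamma s‖ ≤ |M| + 1 := by
    have := XB_Gamma_le hre
    have h3 := hM s.re ⟨h1, h2⟩
    have h4 : Real.Gamma s.re ≤ ‖Real.Gamma s.re‖ := Real.le_norm_self _
    have h5 : M ≤ |M| := le_abs_self M
    linarith
  have hp : (0 : ℝ) < 2 * Real.pi := by positivity
  have hpi := Real.pi_gt_three
  have hP : ‖(2 * (Real.pi : ℂ)) ^ (-s)‖ ≤ 1 := by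
    rw [show (2 * (Real.pi : ℂ)) = ((2 * Real.pi : ℝ) : ℂ) by push_cast; ring,
      Complex.norm_cpow_eq_rpow_re_of_pos hp]
    refine Real.rpow_le_one_of_one_le_of_nonpos (by linarith) ?_
    simp; linarith
  have hC : ‖Complex.cos ((Real.pi : ℂ) * s / 2)‖ ≤ Real.exp (2 * |s.im|) := by
    have h3 := XA_cos s.re s.im
    rw [← XB_eta s] at h3
    have h4 : Real.cos (Real.pi * s.re / 2) ^ 2 + Real.sinh (Real.pi * s.im / 2) ^ 2
        ≤ Real.cosh (Real.pi * s.im / 2) ^ 2 := by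
      rw [Real.cosh_sq]
      have := Real.cos_sq_le_one (Real.pi * s.re / 2)
      linarith
    have h5 : ‖Complex.cos ((Real.pi : ℂ) * s / 2)‖ ≤ Real.cosh (Real.pi * s.im / 2) := by
      have h6 : ‖Complex.cos ((Real.pi : ℂ) * s / 2)‖ ^ 2 ≤ Real.cosh (Real.pi * s.im / 2) ^ 2 := by
        rw [h3]; exact h4
      exact (sq_le_sq₀ (norm_nonneg _) (Real.cosh_pos _).le).1 h6
    refine h5.trans ?_
    have h7 : Real.cosh (Real.pi * s.im / 2) ≤ Real.exp |Real.pi * s.im / 2| := by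
      rw [← Real.cosh_abs, Real.cosh_eq]
      have := Real.exp_le_exp.2 (neg_le_self (abs_nonneg (Real.pi * s.im / 2)))
      linarith
    refine h7.trans (Real.exp_le_exp.2 ?_)
    rw [abs_div, abs_mul, abs_of_pos Real.pi_pos, abs_of_pos (by norm_num : (0 : ℝ) < 2)]
    have := Real.pi_le_four
    nlinarith [abs_nonneg s.im]
  unfold X
  rw [norm_mul, norm_mul, norm_mul]
  have h2' : ‖(2 : ℂ)‖ = 2 := by norm_num
  rw [h2']
  calc 2 * ‖(2 * (Real.pi : ℂ)) ^ (-s)‖ * ‖Complex.Gamma s‖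
        * ‖Complex.cos ((Real.pi : ℂ) * s / 2)‖
      ≤ 2 * 1 * (|M| + 1) * Real.exp (2 * |s.im|) := by
        gcongr
    _ = 2 * (|M| + 1) * Real.exp (2 * |s.im|) := by ring

/-- Phragmen-Lindelof for `X` divided by a function `g` of modulus at least one. -/
theorem XB_pl {a : ℝ} (ha : 1 / 2 ≤ a) (ha2 : a ≤ 3 / 2) (g : ℂ → ℂ) (hg : Differentiable ℂ g)
    (hg1 : ∀ s : ℂ, a ≤ s.re → 1 ≤ ‖g s‖)
    (h1 : ∀ y : ℝ, ‖X ((a : ℂ) + y * I)‖ ≤ ‖g ((a : ℂ) + y * I)‖)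
    (h2 : ∀ y : ℝ, ‖X (((a + 1 : ℝ) : ℂ) + y * I)‖ ≤ ‖g (((a + 1 : ℝ) : ℂ) + y * I)‖)
    {s : ℂ} (hs1 : a ≤ s.re) (hs2 : s.re ≤ a + 1) : ‖X s‖ ≤ ‖g s‖ := by
  have hgpos : ∀ z : ℂ, a ≤ z.re → 0 < ‖g z‖ := fun z hz => lt_of_lt_of_le one_pos (hg1 z hz)
  have hgne : ∀ z : ℂ, a ≤ z.re → g z ≠ 0 := fun z hz => norm_pos_iff.1 (hgpos z hz)
  have key : ‖X s / g s‖ ≤ 1 := by
    have hclo : closure (Complex.re ⁻¹' Ioo a (a + 1)) ⊆ Complex.re ⁻¹' Icc a (a + 1) := by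
      refine closure_minimal (fun z hz => ⟨hz.1.le, hz.2.le⟩) ?_
      exact isClosed_Icc.preimage Complex.continuous_re
    have hd : ∀ z : ℂ, a ≤ z.re → DifferentiableAt ℂ (fun s => X s / g s) z := by
      intro z hz
      exact (X_diff z (by linarith)).div (hg z) (hgne z hz)
    refine PhragmenLindelof.vertical_strip (a := a) (b := a + 1) (f := fun s => X s / g s)
      ?_ ?_ ?_ ?_ hs1 hs2
    · refine ⟨fun z hz => (hd z hz.1.le).differentiableWithinAt, fun z hz => ?_⟩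
      exact (hd z (hclo hz).1).continuousAt.continuousWithinAt
    · obtain ⟨G, hG, hGb⟩ := XB_growth
      refine ⟨1, by rw [show a + 1 - a = 1 by ring, div_one]; linarith [Real.pi_gt_three], 2, ?_⟩
      refine IsBigO.of_bound G ?_
      refine eventually_inf_principal.2 (Eventually.of_forall ?_)
      intro z hz
      have hz1 : a ≤ z.re := hz.1.le
      have hz2 : z.re ≤ a + 1 := hz.2.le
      rw [norm_div, Real.norm_of_nonneg (Real.exp_pos _).le]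
      have h3 := hGb z (by linarith) (by linarith)
      have h4 : ‖X z‖ / ‖g z‖ ≤ ‖X z‖ := div_le_self (norm_nonneg _) (hg1 z hz1)
      refine h4.trans (h3.trans ?_)
      refine mul_le_mul_of_nonneg_left (Real.exp_le_exp.2 ?_) hG.le
      have h5 := Real.add_one_le_exp (1 * |z.im|)
      nlinarith [abs_nonneg z.im]
    · intro z hz
      have e : z = (a : ℂ) + z.im * I := by rw [← hz]; exact XB_eta z
      have h3 := h1 z.im
      rw [← e] at h3
      change ‖X z / g z‖ ≤ 1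
      rw [norm_div]
      exact (div_le_one (hgpos z hz.ge)).2 h3
    · intro z hz
      have e : z = ((a + 1 : ℝ) : ℂ) + z.im * I := by rw [← hz]; exact XB_eta z
      have h3 := h2 z.im
      rw [← e] at h3
      change ‖X z / g z‖ ≤ 1
      rw [norm_div]
      exact (div_le_one (hgpos z (by rw [hz]; linarith))).2 h3
  rw [norm_div, div_le_one (hgpos s hs1)] at key
  exact key

theorem XB_five_half (y : ℝ) :
    ‖X ((5 / 2 : ℂ) + y * I)‖
      = ‖(3 / 2 : ℂ) + y * I‖ * ‖(1 / 2 : ℂ) + y * I‖ / (2 * Real.pi) ^ 2 := by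
  have h := XA_norm_sq (5 / 2) y
  rw [show (((5 / 2 : ℝ) : ℂ)) = (5 / 2 : ℂ) by push_cast; ring] at h
  have hne : ((3 / 2 : ℂ) + y * I) ≠ 0 := by
    intro h
    have := congrArg Complex.re h
    norm_num at this
  have e : (5 / 2 : ℂ) + y * I = ((3 / 2 : ℂ) + y * I) + 1 := by ring
  have hG : ‖Complex.Gamma ((5 / 2 : ℂ) + y * I)‖ ^ 2
      = ‖(3 / 2 : ℂ) + y * I‖ ^ 2 * (‖(1 / 2 : ℂ) + y * I‖ ^ 2
        * (Real.pi / Real.cosh (Real.pi * y))) := by
    rw [e, Complex.Gamma_add_one _ hne, norm_mul, mul_pow, XA_Gamma_three_half]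
  rw [hG, XA_cos_sq_five_half, XA_cosh] at h
  have hp : (0 : ℝ) < 2 * Real.pi := by positivity
  have hpow : ((2 * Real.pi) ^ (-(5 / 2) : ℝ)) ^ 2 = 1 / (2 * Real.pi) ^ 5 := by
    rw [← Real.rpow_natCast, ← Real.rpow_mul hp.le]
    rw [show (-(5 / 2) : ℝ) * ((2 : ℕ) : ℝ) = -((5 : ℕ) : ℝ) by push_cast; ring,
      Real.rpow_neg hp.le, Real.rpow_natCast]
    ring
  have hc := Real.cosh_pos (Real.pi * y)
  have h1 : ‖X ((5 / 2 : ℂ) + y * I)‖ ^ 2
      = (‖(3 / 2 : ℂ) + y * I‖ * ‖(1 / 2 : ℂ) + y * I‖ / (2 * Real.pi) ^ 2) ^ 2 := by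
    rw [h, hpow]
    field_simp
    norm_num
  have h0 : 0 ≤ ‖X ((5 / 2 : ℂ) + y * I)‖ := norm_nonneg _
  have h2 : 0 ≤ ‖(3 / 2 : ℂ) + y * I‖ * ‖(1 / 2 : ℂ) + y * I‖ / (2 * Real.pi) ^ 2 := by positivity
  exact (sq_eq_sq₀ h0 h2).1 h1

theorem XB_add_one (a y : ℝ) : (a : ℂ) + y * I + 1 = ((a + 1 : ℝ) : ℂ) + y * I := by
  push_cast; ring

theorem XB_g_one {a : ℝ} (ha : 1 / 2 ≤ a) (s : ℂ) (hs : a ≤ s.re) : 1 ≤ ‖s + 1‖ := by
  rw [XB_eta s, XB_add_one]
  exact XB_ge _ _ (by linarith)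

theorem XB_left {s : ℂ} (hs1 : 1 / 2 ≤ s.re) (hs2 : s.re ≤ 3 / 2) : ‖X s‖ ≤ ‖s + 1‖ := by
  have hpi := Real.pi_gt_three
  refine XB_pl (a := 1 / 2) le_rfl (by norm_num) (fun s => s + 1) (by fun_prop)
    (fun z hz => XB_g_one le_rfl z hz) ?_ ?_ hs1 (by linarith)
  · intro y
    rw [show (((1 / 2 : ℝ) : ℂ)) = (1 / 2 : ℂ) by push_cast; ring, X_half]
    have := XB_g_one (a := 1 / 2) le_rfl ((1 / 2 : ℂ) + y * I) (by simp)
    exact this
  · intro y
    rw [show (((1 / 2 + 1 : ℝ) : ℂ)) = (3 / 2 : ℂ) by push_cast; ring, X_three_half]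
    have h1 : ‖(1 / 2 : ℂ) + y * I‖ / (2 * Real.pi) ≤ ‖(1 / 2 : ℂ) + y * I‖ :=
      div_le_self (norm_nonneg _) (by linarith)
    refine h1.trans ?_
    have h2 := XB_mono (a := 1 / 2) (b := 5 / 2) y (by norm_num) (by norm_num)
    have e1 : (((1 / 2 : ℝ) : ℂ)) = (1 / 2 : ℂ) := by push_cast; ring
    have e2 : (((5 / 2 : ℝ) : ℂ)) + y * I = (3 / 2 : ℂ) + y * I + 1 := by push_cast; ring
    rw [e1, e2] at h2
    exact h2

theorem XB_right {s : ℂ} (hs1 : 3 / 2 ≤ s.re) (hs2 : s.re ≤ 5 / 2) : ‖X s‖ ≤ ‖s + 1‖ ^ 2 := by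
  have hpi := Real.pi_gt_three
  have key : ‖X s‖ ≤ ‖(fun s : ℂ => (s + 1) ^ 2) s‖ := by
    refine XB_pl (a := 3 / 2) (by norm_num) le_rfl (fun s => (s + 1) ^ 2) (by fun_prop)
      ?_ ?_ ?_ hs1 (by linarith)
    · intro z hz
      rw [norm_pow]
      exact one_le_pow₀ (XB_g_one (a := 1 / 2) le_rfl z (by linarith))
    · intro y
      rw [show (((3 / 2 : ℝ) : ℂ)) = (3 / 2 : ℂ) by push_cast; ring, X_three_half, norm_pow]
      have h1 : ‖(1 / 2 : ℂ) + y * I‖ / (2 * Real.pi) ≤ ‖(1 / 2 : ℂ) + y * I‖ :=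
        div_le_self (norm_nonneg _) (by linarith)
      refine h1.trans ?_
      have h2 := XB_mono (a := 1 / 2) (b := 5 / 2) y (by norm_num) (by norm_num)
      have e1 : (((1 / 2 : ℝ) : ℂ)) = (1 / 2 : ℂ) := by push_cast; ring
      have e2 : (((5 / 2 : ℝ) : ℂ)) + y * I = (3 / 2 : ℂ) + y * I + 1 := by push_cast; ring
      have h3 := XB_ge (5 / 2) y (by norm_num)
      rw [e1, e2] at h2
      rw [e2] at h3
      nlinarith
    · intro y
      rw [show (((3 / 2 + 1 : ℝ) : ℂ)) = (5 / 2 : ℂ) by push_cast; ring, XB_five_half, norm_pow]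
      have h1 : ‖(3 / 2 : ℂ) + y * I‖ * ‖(1 / 2 : ℂ) + y * I‖ / (2 * Real.pi) ^ 2
          ≤ ‖(3 / 2 : ℂ) + y * I‖ * ‖(1 / 2 : ℂ) + y * I‖ :=
        div_le_self (by positivity) (by nlinarith)
      refine h1.trans ?_
      have h2 := XB_mono (a := 1 / 2) (b := 7 / 2) y (by norm_num) (by norm_num)
      have h3 := XB_mono (a := 3 / 2) (b := 7 / 2) y (by norm_num) (by norm_num)
      have e1 : (((1 / 2 : ℝ) : ℂ)) = (1 / 2 : ℂ) := by push_cast; ring
      have e3 : (((3 / 2 : ℝ) : ℂ)) = (3 / 2 : ℂ) := by push_cast; ring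
      have e2 : (((7 / 2 : ℝ) : ℂ)) + y * I = (5 / 2 : ℂ) + y * I + 1 := by push_cast; ring
      rw [e1, e2] at h2
      rw [e3, e2] at h3
      rw [pow_two]
      exact mul_le_mul h3 h2 (norm_nonneg _) (norm_nonneg _)
  rw [norm_pow] at key
  exact key

theorem X_upper : ∃ C : ℝ, 0 < C ∧ ∀ s : ℂ, 1 / 2 ≤ s.re → s.re ≤ 2 →
    ‖X s‖ ≤ C * (1 + |s.im|) ^ 2 := by
  refine ⟨9, by norm_num, ?_⟩
  intro s h1 h2
  have hn : ‖s + 1‖ ≤ 3 * (1 + |s.im|) := by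
    have h3 := Complex.norm_le_abs_re_add_abs_im (s + 1)
    have h4 : (s + 1).re = s.re + 1 := by simp
    have h5 : (s + 1).im = s.im := by simp
    rw [h4, h5, abs_of_nonneg (by linarith)] at h3
    have := abs_nonneg s.im
    linarith
  have hy := abs_nonneg s.im
  have h0 := norm_nonneg (s + 1)
  rcases le_total s.re (3 / 2) with h | h
  · have h3 := XB_left h1 h
    nlinarith
  · have h3 := XB_right h (by linarith)
    have h4 : ‖s + 1‖ ^ 2 ≤ (3 * (1 + |s.im|)) ^ 2 := pow_le_pow_left₀ h0 hn 2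
    nlinarith

theorem XB_beta (y e : ℝ) (he : 0 < e) :
    ‖Complex.betaIntegral ((3 / 2 : ℂ) + y * I) (e : ℂ)‖ ≤ 1 / e := by
  have hu : 0 < ((3 / 2 : ℂ) + y * I).re := by simp
  have hv : 0 < ((e : ℂ)).re := by simpa using he
  have hconv := (Complex.betaIntegral_convergent hu hv).norm
  have hcalc : ∫ x in (0 : ℝ)..1, (1 - x) ^ (e - 1) = 1 / e := by
    rw [intervalIntegral.integral_comp_sub_left (fun x : ℝ => x ^ (e - 1)) 1]
    rw [integral_rpow (Or.inl (by linarith))]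
    simp [Real.zero_rpow he.ne']
  have hint : IntervalIntegrable (fun x : ℝ => (1 - x) ^ (e - 1)) volume 0 1 := by
    have h := (intervalIntegral.intervalIntegrable_rpow' (a := 1) (b := 0) (r := e - 1)
      (by linarith)).comp_sub_left 1
    simpa using h
  unfold Complex.betaIntegral
  refine (intervalIntegral.norm_integral_le_integral_norm (by norm_num)).trans ?_
  rw [← hcalc]
  refine intervalIntegral.integral_mono_on_of_le_Ioo (by norm_num) hconv hint ?_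
  intro x hx
  have hx0 : 0 < x := hx.1
  have hx1 : 0 < 1 - x := by linarith [hx.2]
  rw [norm_mul, Complex.norm_cpow_eq_rpow_re_of_pos hx0]
  have e1 : (1 : ℂ) - (x : ℂ) = ((1 - x : ℝ) : ℂ) := by push_cast; ring
  rw [e1, Complex.norm_cpow_eq_rpow_re_of_pos hx1]
  have e2 : ((3 / 2 : ℂ) + y * I - 1).re = 1 / 2 := by simp; norm_num
  have e3 : ((e : ℂ) - 1).re = e - 1 := by simp
  rw [e2, e3]
  have h1 : x ^ (1 / 2 : ℝ) ≤ 1 := Real.rpow_le_one hx0.le (by linarith [hx.2]) (by norm_num)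
  have h2 : 0 ≤ (1 - x) ^ (e - 1) := Real.rpow_nonneg hx1.le _
  nlinarith

theorem XB_Gamma_lower : ∃ c : ℝ, 0 < c ∧ ∀ e y : ℝ, 0 ≤ e → e ≤ 1 / 2 →
    c * ‖Complex.Gamma ((3 / 2 : ℂ) + y * I)‖
      ≤ ‖Complex.Gamma (((3 / 2 + e : ℝ) : ℂ) + y * I)‖ := by
  have hcont : ContinuousOn Real.Gamma (Icc (1 : ℝ) (3 / 2)) := by
    intro x hx
    refine (Real.differentiableAt_Gamma ?_).continuousAt.continuousWithinAt
    intro m h
    have h1 : (1 : ℝ) ≤ x := hx.1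
    have h2 : (0 : ℝ) ≤ m := Nat.cast_nonneg m
    rw [h] at h1
    linarith
  obtain ⟨x0, hx0, hmin⟩ := isCompact_Icc.exists_isMinOn (nonempty_Icc.2 (by norm_num)) hcont
  have hc : 0 < Real.Gamma x0 := Real.Gamma_pos_of_pos (by linarith [hx0.1])
  have hc1 : Real.Gamma x0 ≤ 1 := by
    have := hmin (show (1 : ℝ) ∈ Icc (1 : ℝ) (3 / 2) by constructor <;> norm_num)
    simpa using this
  refine ⟨Real.Gamma x0, hc, ?_⟩
  intro e y he he1
  rcases he.eq_or_lt with h | h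
  · subst h
    have e1 : (((3 / 2 + 0 : ℝ) : ℂ)) = (3 / 2 : ℂ) := by push_cast; ring
    rw [e1]
    have := norm_nonneg (Complex.Gamma ((3 / 2 : ℂ) + y * I))
    nlinarith
  · have hu : 0 < ((3 / 2 : ℂ) + y * I).re := by simp
    have hv : 0 < ((e : ℂ)).re := by simpa using h
    have hid := Complex.Gamma_mul_Gamma_eq_betaIntegral hu hv
    have e1 : (3 / 2 : ℂ) + y * I + (e : ℂ) = ((3 / 2 + e : ℝ) : ℂ) + y * I := by
      push_cast; ring
    rw [e1] at hid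
    have hn := congrArg norm hid
    rw [norm_mul, norm_mul, Complex.Gamma_ofReal, Complex.norm_real,
      Real.norm_of_nonneg (Real.Gamma_pos_of_pos h).le] at hn
    have hb := XB_beta y e h
    have hG : Real.Gamma (e + 1) = e * Real.Gamma e := Real.Gamma_add_one h.ne'
    have hm : Real.Gamma x0 ≤ Real.Gamma (e + 1) :=
      hmin (show (e + 1 : ℝ) ∈ Icc (1 : ℝ) (3 / 2) by constructor <;> linarith)
    have h0 := norm_nonneg (Complex.Gamma ((3 / 2 : ℂ) + y * I))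
    have h1 := norm_nonneg (Complex.Gamma (((3 / 2 + e : ℝ) : ℂ) + y * I))
    have h2 : ‖Complex.Gamma ((3 / 2 : ℂ) + y * I)‖ * Real.Gamma e
        ≤ ‖Complex.Gamma (((3 / 2 + e : ℝ) : ℂ) + y * I)‖ * (1 / e) := by
      rw [hn]
      exact mul_le_mul_of_nonneg_left hb h1
    have h3 : ‖Complex.Gamma ((3 / 2 : ℂ) + y * I)‖ * (e * Real.Gamma e)
        ≤ ‖Complex.Gamma (((3 / 2 + e : ℝ) : ℂ) + y * I)‖ := by
      have h4 := mul_le_mul_of_nonneg_left h2 h.le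
      calc ‖Complex.Gamma ((3 / 2 : ℂ) + y * I)‖ * (e * Real.Gamma e)
          = e * (‖Complex.Gamma ((3 / 2 : ℂ) + y * I)‖ * Real.Gamma e) := by ring
        _ ≤ e * (‖Complex.Gamma (((3 / 2 + e : ℝ) : ℂ) + y * I)‖ * (1 / e)) := h4
        _ = ‖Complex.Gamma (((3 / 2 + e : ℝ) : ℂ) + y * I)‖ := by field_simp
    rw [← hG] at h3
    nlinarith

theorem X_lower : ∃ c : ℝ, 0 < c ∧ ∀ s : ℂ, 3 / 2 ≤ s.re → s.re ≤ 2 → 1 ≤ |s.im| →
    c * |s.im| ≤ ‖X s‖ := by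
  obtain ⟨c, hc, hcG⟩ := XB_Gamma_lower
  have hp : (0 : ℝ) < 2 * Real.pi := by positivity
  have hpi := Real.pi_gt_three
  refine ⟨2 * (2 * Real.pi) ^ (-2 : ℝ) * c, by positivity, ?_⟩
  intro s h1 h2 h3
  set y := s.im with hy
  have hs : s = ((3 / 2 + (s.re - 3 / 2) : ℝ) : ℂ) + y * I := by
    rw [show (3 / 2 + (s.re - 3 / 2) : ℝ) = s.re by ring]; exact XB_eta s
  have hG := hcG (s.re - 3 / 2) y (by linarith) (by linarith)
  rw [← hs] at hG
  have hX := XA_norm_sq s.re y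
  rw [hy, ← XB_eta s] at hX
  have hsh : 1 ≤ Real.sinh (Real.pi * s.im / 2) ^ 2 := by
    have h4 : 1 ≤ Real.sinh |Real.pi * s.im / 2| := by
      have h5 : |Real.pi * s.im / 2| ≤ Real.sinh |Real.pi * s.im / 2| :=
        Real.self_le_sinh_iff.2 (abs_nonneg _)
      have h6 : 1 ≤ |Real.pi * s.im / 2| := by
        rw [abs_div, abs_mul, abs_of_pos Real.pi_pos, abs_of_pos (by norm_num : (0 : ℝ) < 2)]
        nlinarith
      linarith
    have h7 : Real.sinh (Real.pi * s.im / 2) ^ 2 = Real.sinh |Real.pi * s.im / 2| ^ 2 := by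
      rcases abs_choice (Real.pi * s.im / 2) with h | h <;> rw [h]
      rw [Real.sinh_neg]; ring
    rw [h7]
    nlinarith
  have hG3 := XA_Gamma_three_half y
  have hG3' : ‖(1 / 2 : ℂ) + y * I‖ ^ 2 = 1 / 4 + y ^ 2 := by
    have := XB_nsq (1 / 2) y
    rw [show (((1 / 2 : ℝ) : ℂ)) = (1 / 2 : ℂ) by push_cast; ring] at this
    rw [this]; norm_num
  rw [hG3'] at hG3
  have hcosh := XA_cosh y
  have hcpos := Real.cosh_pos (Real.pi * y)
  have hΓ : c ^ 2 * ((1 / 4 + y ^ 2) * (Real.pi / Real.cosh (Real.pi * y)))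
      ≤ ‖Complex.Gamma s‖ ^ 2 := by
    rw [← hG3, ← mul_pow]
    exact pow_le_pow_left₀ (by positivity) hG 2
  have hpw : (2 * Real.pi) ^ (-2 : ℝ) ≤ (2 * Real.pi) ^ (-s.re) :=
    Real.rpow_le_rpow_of_exponent_le (by linarith) (by linarith)
  have hpw2 : ((2 * Real.pi) ^ (-2 : ℝ)) ^ 2 ≤ ((2 * Real.pi) ^ (-s.re)) ^ 2 :=
    pow_le_pow_left₀ (by positivity) hpw 2
  have hsq : (2 * (2 * Real.pi) ^ (-2 : ℝ) * c * |s.im|) ^ 2 ≤ ‖X s‖ ^ 2 := by
    rw [hX]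
    have hprod : c ^ 2 * y ^ 2 ≤ ‖Complex.Gamma s‖ ^ 2
        * (Real.cos (Real.pi * s.re / 2) ^ 2 + Real.sinh (Real.pi * s.im / 2) ^ 2) := by
      have h8 : 0 ≤ Real.cos (Real.pi * s.re / 2) ^ 2 := sq_nonneg _
      have h9 : Real.cosh (Real.pi * y) ≤ 3 * Real.sinh (Real.pi * s.im / 2) ^ 2 := by
        rw [hy] at hcosh ⊢
        linarith
      have h10 : c ^ 2 * ((1 / 4 + y ^ 2) * (Real.pi / Real.cosh (Real.pi * y)))
          * Real.sinh (Real.pi * s.im / 2) ^ 2 ≤ ‖Complex.Gamma s‖ ^ 2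
        * (Real.cos (Real.pi * s.re / 2) ^ 2 + Real.sinh (Real.pi * s.im / 2) ^ 2) := by
        refine mul_le_mul hΓ (by linarith) (by positivity) (by positivity)
      refine le_trans ?_ h10
      have h11 : 1 ≤ Real.pi / Real.cosh (Real.pi * y) * Real.sinh (Real.pi * s.im / 2) ^ 2 := by
        rw [div_mul_eq_mul_div, le_div_iff₀ hcpos]
        nlinarith
      calc c ^ 2 * y ^ 2 = c ^ 2 * y ^ 2 * 1 := by ring
        _ ≤ c ^ 2 * (1 / 4 + y ^ 2)
            * (Real.pi / Real.cosh (Real.pi * y) * Real.sinh (Real.pi * s.im / 2) ^ 2) := by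
            refine mul_le_mul ?_ h11 (by norm_num) (by positivity)
            exact mul_le_mul_of_nonneg_left (by linarith) (sq_nonneg c)
        _ = c ^ 2 * ((1 / 4 + y ^ 2) * (Real.pi / Real.cosh (Real.pi * y)))
          * Real.sinh (Real.pi * s.im / 2) ^ 2 := by ring
    calc (2 * (2 * Real.pi) ^ (-2 : ℝ) * c * |s.im|) ^ 2
        = 4 * ((2 * Real.pi) ^ (-2 : ℝ)) ^ 2 * (c ^ 2 * y ^ 2) := by
          rw [mul_pow, mul_pow, mul_pow, sq_abs]; ring
      _ ≤ 4 * ((2 * Real.pi) ^ (-s.re)) ^ 2 * (‖Complex.Gamma s‖ ^ 2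
        * (Real.cos (Real.pi * s.re / 2) ^ 2 + Real.sinh (Real.pi * s.im / 2) ^ 2)) := by
          refine mul_le_mul ?_ hprod (by positivity) (by positivity)
          exact mul_le_mul_of_nonneg_left hpw2 (by norm_num)
      _ = _ := by ring
  exact (sq_le_sq₀ (by positivity) (norm_nonneg _)).1 hsq

end Pool.Agent.helper84.DM
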