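import Pool.Agent.helper84.DM.Defs

/-! DM project, module XA: exact values of the functional equation factor `X`. -/

set_option autoImplicit false

open Complex Metric MeasureTheory

namespace Pool.Agent.helper84.DM

theorem XA_ne_neg {s : ℂ} (hs : 0 < s.re) (n : ℕ) : s ≠ -n := by
  intro h
  have h1 : s.re = -(n : ℝ) := by rw [h]; simp
  have h2 : (0 : ℝ) ≤ n := Nat.cast_nonneg n
  linarith

theorem zeta_one_sub (s : ℂ) (hs : 0 < s.re) (h1 : s ≠ 1) :
    riemannZeta (1 - s) = X s * riemannZeta s := by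
  rw [riemannZeta_one_sub (XA_ne_neg hs) h1, X]

theorem X_diff (s : ℂ) (hs : 0 < s.re) : DifferentiableAt ℂ X s := by
  unfold X
  have h2 : (2 * (Real.pi : ℂ)) ≠ 0 := by
    have := Real.pi_ne_zero
    simp [this]
  have hG : DifferentiableAt ℂ Complex.Gamma s :=
    Complex.differentiableAt_Gamma s (XA_ne_neg hs)
  have hP : DifferentiableAt ℂ (fun s : ℂ => (2 * (Real.pi : ℂ)) ^ (-s)) s :=
    differentiableAt_id.neg.const_cpow (Or.inl h2)
  have hC : DifferentiableAt ℂ (fun s : ℂ => Complex.cos ((Real.pi : ℂ) * s / 2)) s := by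
    fun_prop
  exact (((differentiableAt_const _).mul hP).mul hG).mul hC

/-- The square of the modulus of the cosine factor. -/
theorem XA_cos (x y : ℝ) :
    ‖Complex.cos ((Real.pi : ℂ) * ((x : ℂ) + y * I) / 2)‖ ^ 2
      = Real.cos (Real.pi * x / 2) ^ 2 + Real.sinh (Real.pi * y / 2) ^ 2 := by
  have e : (Real.pi : ℂ) * ((x : ℂ) + y * I) / 2
      = ((Real.pi * x / 2 : ℝ) : ℂ) + ((Real.pi * y / 2 : ℝ) : ℂ) * I := by
    push_cast; ring
  rw [e, Complex.cos_add, Complex.cos_mul_I, Complex.sin_mul_I, ← Complex.ofReal_cos,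
    ← Complex.ofReal_sin, ← Complex.ofReal_cosh, ← Complex.ofReal_sinh, ← Complex.normSq_eq_norm_sq,
    Complex.normSq_apply]
  have hc := Real.cosh_sq (Real.pi * y / 2)
  have hs := Real.sin_sq_add_cos_sq (Real.pi * x / 2)
  simp only [Complex.sub_re, Complex.sub_im, Complex.mul_re, Complex.mul_im, Complex.ofReal_re,
    Complex.ofReal_im, Complex.I_re, Complex.I_im]
  nlinarith [hc, hs]

/-- The square of the modulus of `Γ(1/2 + iy)`. -/
theorem XA_Gamma_half (y : ℝ) :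
    ‖Complex.Gamma ((1 / 2 : ℂ) + y * I)‖ ^ 2 = Real.pi / Real.cosh (Real.pi * y) := by
  have h := Complex.Gamma_mul_Gamma_one_sub ((1 / 2 : ℂ) + y * I)
  have e : (1 : ℂ) - ((1 / 2 : ℂ) + y * I) = (starRingEnd ℂ) ((1 / 2 : ℂ) + y * I) := by
    simp only [map_add, map_mul, map_div₀, map_one, Complex.conj_ofReal, Complex.conj_I]
    have : (starRingEnd ℂ) (2 : ℂ) = 2 := by
      rw [show (2 : ℂ) = ((2 : ℝ) : ℂ) by norm_num, Complex.conj_ofReal]
    rw [this]; ring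
  rw [e, Complex.Gamma_conj, Complex.mul_conj] at h
  have e2 : (Real.pi : ℂ) * ((1 / 2 : ℂ) + y * I)
      = ((Real.pi * y : ℝ) : ℂ) * I + (Real.pi : ℂ) / 2 := by
    push_cast; ring
  rw [e2, Complex.sin_add_pi_div_two, Complex.cos_mul_I, ← Complex.ofReal_cosh] at h
  have h' : Complex.normSq (Complex.Gamma ((1 / 2 : ℂ) + y * I))
      = Real.pi / Real.cosh (Real.pi * y) := by
    exact_mod_cast h
  rw [← Complex.normSq_eq_norm_sq, h']

theorem XA_cosh (y : ℝ) :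
    1 / 2 + Real.sinh (Real.pi * y / 2) ^ 2 = Real.cosh (Real.pi * y) / 2 := by
  have h := Real.cosh_two_mul (Real.pi * y / 2)
  have h2 := Real.cosh_sq (Real.pi * y / 2)
  rw [show 2 * (Real.pi * y / 2) = Real.pi * y by ring] at h
  rw [h, h2]; ring

/-- The modulus of the factor `X`, squared. -/
theorem XA_norm_sq (x y : ℝ) :
    ‖X ((x : ℂ) + y * I)‖ ^ 2 = 4 * ((2 * Real.pi) ^ (-x)) ^ 2
      * ‖Complex.Gamma ((x : ℂ) + y * I)‖ ^ 2
      * (Real.cos (Real.pi * x / 2) ^ 2 + Real.sinh (Real.pi * y / 2) ^ 2) := by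
  unfold X
  rw [norm_mul, norm_mul, norm_mul, mul_pow, mul_pow, mul_pow, XA_cos]
  have h2 : (2 * (Real.pi : ℂ)) = ((2 * Real.pi : ℝ) : ℂ) := by push_cast; ring
  have hp : (0 : ℝ) < 2 * Real.pi := by positivity
  rw [h2, Complex.norm_cpow_eq_rpow_re_of_pos hp]
  have hre : (-((x : ℂ) + y * I)).re = -x := by simp
  rw [hre]
  norm_num

theorem XA_cos_sq_half : Real.cos (Real.pi * (1 / 2) / 2) ^ 2 = 1 / 2 := by
  rw [show Real.pi * (1 / 2) / 2 = Real.pi / 4 by ring, Real.cos_pi_div_four]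
  rw [div_pow, Real.sq_sqrt (by norm_num)]; norm_num

theorem XA_cos_sq_three_half : Real.cos (Real.pi * (3 / 2) / 2) ^ 2 = 1 / 2 := by
  rw [show Real.pi * (3 / 2) / 2 = Real.pi - Real.pi / 4 by ring, Real.cos_pi_sub,
    Real.cos_pi_div_four, neg_sq]
  rw [div_pow, Real.sq_sqrt (by norm_num)]; norm_num

theorem XA_cos_sq_five_half : Real.cos (Real.pi * (5 / 2) / 2) ^ 2 = 1 / 2 := by
  rw [show Real.pi * (5 / 2) / 2 = Real.pi / 4 + Real.pi by ring, Real.cos_add_pi,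
    Real.cos_pi_div_four, neg_sq]
  rw [div_pow, Real.sq_sqrt (by norm_num)]; norm_num

theorem X_half (y : ℝ) : ‖X ((1 / 2 : ℂ) + y * I)‖ = 1 := by
  have h := XA_norm_sq (1 / 2) y
  rw [show (((1 / 2 : ℝ) : ℂ)) = (1 / 2 : ℂ) by push_cast; ring] at h
  rw [XA_Gamma_half, XA_cos_sq_half, XA_cosh] at h
  have hp : (0 : ℝ) < 2 * Real.pi := by positivity
  have hpow : ((2 * Real.pi) ^ (-(1 / 2) : ℝ)) ^ 2 = 1 / (2 * Real.pi) := by
    rw [← Real.rpow_natCast, ← Real.rpow_mul hp.le]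
    norm_num [Real.rpow_neg_one]
  have hc := Real.cosh_pos (Real.pi * y)
  have h1 : ‖X ((1 / 2 : ℂ) + y * I)‖ ^ 2 = 1 := by
    rw [h, hpow]
    field_simp
    norm_num
  have h0 : 0 ≤ ‖X ((1 / 2 : ℂ) + y * I)‖ := norm_nonneg _
  nlinarith [h1, h0]

theorem XA_Gamma_three_half (y : ℝ) :
    ‖Complex.Gamma ((3 / 2 : ℂ) + y * I)‖ ^ 2
      = ‖(1 / 2 : ℂ) + y * I‖ ^ 2 * (Real.pi / Real.cosh (Real.pi * y)) := by
  have hne : ((1 / 2 : ℂ) + y * I) ≠ 0 := by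
    intro h
    have := congrArg Complex.re h
    norm_num at this
  have e : (3 / 2 : ℂ) + y * I = ((1 / 2 : ℂ) + y * I) + 1 := by ring
  rw [e, Complex.Gamma_add_one _ hne, norm_mul, mul_pow, XA_Gamma_half]

theorem X_three_half (y : ℝ) :
    ‖X ((3 / 2 : ℂ) + y * I)‖ = ‖(1 / 2 : ℂ) + y * I‖ / (2 * Real.pi) := by
  have h := XA_norm_sq (3 / 2) y
  rw [show (((3 / 2 : ℝ) : ℂ)) = (3 / 2 : ℂ) by push_cast; ring] at h
  rw [XA_Gamma_three_half, XA_cos_sq_three_half, XA_cosh] at h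
  have hp : (0 : ℝ) < 2 * Real.pi := by positivity
  have hpow : ((2 * Real.pi) ^ (-(3 / 2) : ℝ)) ^ 2 = 1 / (2 * Real.pi) ^ 3 := by
    rw [← Real.rpow_natCast, ← Real.rpow_mul hp.le]
    rw [show (-(3 / 2) : ℝ) * ((2 : ℕ) : ℝ) = -((3 : ℕ) : ℝ) by push_cast; ring,
      Real.rpow_neg hp.le, Real.rpow_natCast]
    ring
  have hc := Real.cosh_pos (Real.pi * y)
  have h1 : ‖X ((3 / 2 : ℂ) + y * I)‖ ^ 2 = (‖(1 / 2 : ℂ) + y * I‖ / (2 * Real.pi)) ^ 2 := by
    rw [h, hpow]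
    field_simp
    norm_num
  have h0 : 0 ≤ ‖X ((3 / 2 : ℂ) + y * I)‖ := norm_nonneg _
  have h2 : 0 ≤ ‖(1 / 2 : ℂ) + y * I‖ / (2 * Real.pi) := by positivity
  exact (sq_eq_sq₀ h0 h2).1 h1

end Pool.Agent.helper84.DM
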